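import Pool.Agent.Helper675.LS.Core

/-! Idempotents modulo `V = v - 1` and their sets of primes. -/

set_option autoImplicit false

namespace Pool.Agent.Helper675.LS

/-- the properties of a block size `k` (order `n = k - λ`, `V = v - 1`) with `k` coprime to `v` -/
structure Elt (V k n : ℤ) : Prop where
  one : 1 < k
  lt : k < V
  idem : V ∣ k * (k - 1)
  nV : n * V = k * (V + 1 - k)
  cop : IsCoprime k (V + 1)

theorem Elt.compl {V k n : ℤ} (h : Elt V k n) : Elt V (V + 1 - k) n where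
  one := by have := h.lt; linarith
  lt := by have := h.one; linarith
  idem := by
    obtain ⟨c, hc⟩ := h.idem
    exact ⟨(V + 1 - k) - k + c, by linear_combination hc⟩
  nV := by linear_combination h.nV
  cop := by
    obtain ⟨a, b, hab⟩ := h.cop
    exact ⟨-a, b + a, by linear_combination hab⟩

theorem Elt.pos {V k n : ℤ} (h : Elt V k n) : 0 < n := by
  have h1 := h.one
  have h2 := h.lt
  have h3 : 0 < n * V := by rw [h.nV]; exact mul_pos (by linarith) (by linarith)
  exact pos_of_mul_pos_left h3 (by linarith)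

theorem Elt.n_lt {V k n : ℤ} (h : Elt V k n) : n < k := by
  have h1 := h.one
  have h2 := h.lt
  have h3 : n * V < k * V := by
    rw [h.nV]; exact mul_lt_mul_of_pos_left (by linarith) (by linarith)
  exact lt_of_mul_lt_mul_right h3 (by linarith)

theorem Elt.n_lt' {V k n : ℤ} (h : Elt V k n) : n < V + 1 - k := h.compl.n_lt

/-- the primes dividing `V` and `e` -/
def pset (V : ℕ) (e : ℤ) : Finset ℕ := {p ∈ V.primeFactors | (p : ℤ) ∣ e}

theorem pp {V : ℕ} {e : ℤ} (he : (V : ℤ) ∣ e * (e - 1)) {p a : ℕ} (hp : p.Prime)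
    (ha : p ^ a ∣ V) (ha0 : a ≠ 0) : ((p : ℤ) ∣ e → ((p ^ a : ℕ) : ℤ) ∣ e) ∧
      (¬ (p : ℤ) ∣ e → ((p ^ a : ℕ) : ℤ) ∣ e - 1) := by
  have h : ((p ^ a : ℕ) : ℤ) ∣ e * (e - 1) := (Int.natCast_dvd_natCast.mpr ha).trans he
  have hpi : Prime (p : ℤ) := Nat.prime_iff_prime_int.mp hp
  push_cast at h ⊢
  constructor
  · intro hpe
    have h1 : ¬ (p : ℤ) ∣ e - 1 := by
      intro h2
      have h3 : (p : ℤ) ∣ 1 := by
        have := dvd_sub hpe h2
        simpa using this
      exact hpi.not_unit (isUnit_of_dvd_one h3)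
    exact ((hpi.coprime_iff_not_dvd.mpr h1).pow_left).dvd_of_dvd_mul_right h
  · intro hpe
    exact ((hpi.coprime_iff_not_dvd.mpr hpe).pow_left).dvd_of_dvd_mul_left h

theorem dvd_of_pp {V : ℕ} {X : ℤ}
    (h : ∀ p a : ℕ, p.Prime → a ≠ 0 → p ^ a ∣ V → ((p ^ a : ℕ) : ℤ) ∣ X) : (V : ℤ) ∣ X := by
  rw [Int.natCast_dvd, Nat.dvd_iff_prime_pow_dvd_dvd]
  intro p k hp hk
  rcases Nat.eq_zero_or_pos k with h0 | h0
  · subst h0; simp
  · exact Int.natCast_dvd.mp (h p k hp h0.ne' hk)

theorem mem_pf {V p a : ℕ} (hV : V ≠ 0) (hp : p.Prime) (ha0 : a ≠ 0) (ha : p ^ a ∣ V) :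
    p ∈ V.primeFactors :=
  Nat.mem_primeFactors.mpr ⟨hp, (dvd_pow_self p ha0).trans ha, hV⟩

theorem mem_pset {V p : ℕ} {e : ℤ} (h : p ∈ V.primeFactors) : p ∈ pset V e ↔ (p : ℤ) ∣ e := by
  simp [pset, Finset.mem_filter, h]

theorem dvd_of_pset {V : ℕ} (hV : V ≠ 0) {e e' : ℤ} (he : (V : ℤ) ∣ e * (e - 1))
    (he' : (V : ℤ) ∣ e' * (e' - 1)) (h : pset V e = pset V e') : (V : ℤ) ∣ e - e' := by
  refine dvd_of_pp fun p a hp ha0 ha => ?_
  have hm := mem_pf hV hp ha0 ha
  have h1 := pp he hp ha ha0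
  have h2 := pp he' hp ha ha0
  have h3 : (p : ℤ) ∣ e ↔ (p : ℤ) ∣ e' := by rw [← mem_pset hm, ← mem_pset hm, h]
  by_cases h4 : (p : ℤ) ∣ e
  · exact dvd_sub (h1.1 h4) (h2.1 (h3.1 h4))
  · have h5 := dvd_sub (h1.2 h4) (h2.2 (fun h => h4 (h3.2 h)))
    have h6 : e - 1 - (e' - 1) = e - e' := by ring
    rwa [h6] at h5

theorem eq_of_pset {V : ℕ} {e e' n n' : ℤ} (he : Elt V e n) (he' : Elt V e' n')
    (h : pset V e = pset V e') : e = e' := by
  have h1 := he.one
  have h2 := he.lt
  have h3 := he'.one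
  have h4 := he'.lt
  have hV : V ≠ 0 := by
    rintro rfl
    norm_num at h2; linarith
  have h5 := dvd_of_pset hV he.idem he'.idem h
  have h6 : e - e' = 0 := Int.eq_zero_of_abs_lt_dvd h5 (by rw [abs_lt]; constructor <;> linarith)
  linarith

theorem pset_compl {V : ℕ} {e n : ℤ} (he : Elt V e n) :
    pset V (V + 1 - e) = V.primeFactors \ pset V e := by
  ext p
  rw [Finset.mem_sdiff]
  constructor
  · intro h
    have hm : p ∈ V.primeFactors := (Finset.mem_filter.mp h).1
    refine ⟨hm, fun h2 => ?_⟩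
    rw [mem_pset hm] at h h2
    have hp := Nat.prime_of_mem_primeFactors hm
    have hpV : (p : ℤ) ∣ V := Int.natCast_dvd_natCast.mpr (Nat.dvd_of_mem_primeFactors hm)
    have h3 : (p : ℤ) ∣ 1 := by
      have h4 := dvd_sub (dvd_add h h2) hpV
      have h5 : (V : ℤ) + 1 - e + e - V = 1 := by ring
      rwa [h5] at h4
    exact (Nat.prime_iff_prime_int.mp hp).not_unit (isUnit_of_dvd_one h3)
  · rintro ⟨hm, h2⟩
    rw [mem_pset hm] at h2 ⊢
    have hp := Nat.prime_of_mem_primeFactors hm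
    have hpV : (p : ℤ) ∣ V := Int.natCast_dvd_natCast.mpr (Nat.dvd_of_mem_primeFactors hm)
    have h3 : (p : ℤ) ∣ e * (e - 1) := hpV.trans he.idem
    rcases (Nat.prime_iff_prime_int.mp hp).dvd_or_dvd h3 with h4 | h4
    · exact absurd h4 h2
    · have h5 := dvd_sub hpV h4
      have h6 : (V : ℤ) - (e - 1) = V + 1 - e := by ring
      rwa [h6] at h5

theorem pset_sub (V : ℕ) (e : ℤ) : pset V e ⊆ V.primeFactors := Finset.filter_subset _ _

theorem pset_ne_empty {V : ℕ} {e n : ℤ} (he : Elt V e n) : pset V e ≠ ∅ := by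
  intro h
  have h1 := he.one
  have h2 := he.lt
  have hV : V ≠ 0 := by
    rintro rfl
    norm_num at h2; linarith
  have h3 : pset V e = pset V 1 := by
    rw [h]; symm
    rw [Finset.eq_empty_iff_forall_notMem]
    intro p hp
    have hm : p ∈ V.primeFactors := (Finset.mem_filter.mp hp).1
    rw [mem_pset hm] at hp
    exact (Nat.prime_iff_prime_int.mp (Nat.prime_of_mem_primeFactors hm)).not_unit
      (isUnit_of_dvd_one hp)
  have h4 := dvd_of_pset hV he.idem (by simp) h3
  have h6 : e - 1 = 0 := Int.eq_zero_of_abs_lt_dvd h4 (by rw [abs_lt]; constructor <;> linarith)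
  linarith

theorem pset_ne_all {V : ℕ} {e n : ℤ} (he : Elt V e n) : pset V e ≠ V.primeFactors := by
  intro h
  have h1 := pset_ne_empty he.compl
  rw [pset_compl he, h] at h1
  simp at h1

/-- flipping a block size to its complement keeps the product condition -/
theorem flip {v a b N : ℤ} (h : ∃ d : ℤ, d ^ 2 = N ∧ v ∣ d - a * b) :
    ∃ d : ℤ, d ^ 2 = N ∧ v ∣ d - (v - a) * b := by
  obtain ⟨d, h1, q, h2⟩ := h
  exact ⟨-d, by rw [← h1]; ring, -q - b, by linear_combination -h2⟩

/-- in a linked triple, `v - 1` has at least four prime divisors -/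
theorem four {V : ℕ} {k1 k2 k3 n1 n2 n3 d : ℤ} (E1 : Elt V k1 n1) (E2 : Elt V k2 n2)
    (E3 : Elt V k3 n3) (hd : d ^ 2 = n1 * n2 * n3) (hdv : (V : ℤ) + 1 ∣ d - k1 * k2 * k3)
    (h12 : k1 ≠ k2) (h12' : k1 + k2 ≠ V + 1) (h13 : k1 ≠ k3) (h13' : k1 + k3 ≠ V + 1)
    (h23 : k2 ≠ k3) (h23' : k2 + k3 ≠ V + 1) : 4 ≤ V.primeFactors.card := by
  by_contra hcon
  have hcon : V.primeFactors.card ≤ 3 := by omega
  have hV0 : V ≠ 0 := by
    rintro rfl
    have h1 := E1.one
    have h2 := E1.lt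
    norm_num at h2; linarith
  -- the number of primes is three
  have hcard : ∀ {e n : ℤ}, Elt V e n → 1 ≤ (pset V e).card ∧
      (pset V e).card + 1 ≤ V.primeFactors.card := by
    intro e n he
    refine ⟨Finset.card_pos.mpr (Finset.nonempty_iff_ne_empty.mpr (pset_ne_empty he)), ?_⟩
    exact Finset.card_lt_card ((pset_sub V e).ssubset_of_ne (pset_ne_all he))
  have hcc : ∀ {e n : ℤ}, Elt V e n → (pset V (V + 1 - e)).card =
      V.primeFactors.card - (pset V e).card := by
    intro e n he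
    rw [pset_compl he, Finset.card_sdiff_of_subset (pset_sub V e)]
  have h3 : V.primeFactors.card = 3 := by
    by_contra hne
    have a1 := hcard E1
    have a2 := hcard E2
    have a3 := hcc E2
    have c1 : (pset V k1).card = 1 := by omega
    have c2 : (pset V k2).card = 1 := by omega
    have c3 : (pset V (V + 1 - k2)).card = 1 := by omega
    obtain ⟨a, ha⟩ := Finset.card_eq_one.mp c1
    obtain ⟨b, hb⟩ := Finset.card_eq_one.mp c2
    by_cases hab : a = b
    · apply h12
      apply eq_of_pset E1 E2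
      rw [ha, hb, hab]
    · apply h12'
      have h5 : k1 = V + 1 - k2 := by
        apply eq_of_pset E1 E2.compl
        apply Finset.eq_of_subset_of_card_le
        · rw [pset_compl E2, ha, hb]
          intro x hx
          rw [Finset.mem_singleton] at hx
          subst hx
          rw [Finset.mem_sdiff]
          refine ⟨pset_sub V k1 (by rw [ha]; simp), by simpa using hab⟩
        · rw [c1, c3]
      linarith
  -- choose the sides with two primes
  have hch : ∀ {k n : ℤ}, Elt V k n → ∃ e, Elt V e n ∧ (e = k ∨ e = V + 1 - k) ∧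
      (pset V e).card = 2 := by
    intro k n hk
    have a1 := hcard hk
    have a2 := hcc hk
    by_cases h5 : (pset V k).card = 2
    · exact ⟨k, hk, Or.inl rfl, h5⟩
    · exact ⟨V + 1 - k, hk.compl, Or.inr rfl, by omega⟩
  obtain ⟨e1, F1, g1, w1⟩ := hch E1
  obtain ⟨e2, F2, g2, w2⟩ := hch E2
  obtain ⟨e3, F3, g3, w3⟩ := hch E3
  have hne : ∀ {a b x y : ℤ}, a ≠ b → a + b ≠ V + 1 → (x = a ∨ x = V + 1 - a) →
      (y = b ∨ y = V + 1 - b) → x ≠ y := by
    intro a b x y hab hab' hx hy hxy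
    rcases hx with hx | hx <;> rcases hy with hy | hy
    · exact hab (by linarith)
    · exact hab' (by linarith)
    · exact hab' (by linarith)
    · exact hab (by linarith)
  have z12 := hne h12 h12' g1 g2
  have z13 := hne h13 h13' g1 g3
  have z23 := hne h23 h23' g2 g3
  -- the product condition for the chosen sides
  have hprod : ∃ d : ℤ, d ^ 2 = n1 * n2 * n3 ∧ ((V : ℤ) + 1) ∣ d - e1 * e2 * e3 := by
    have s1 : ∃ d : ℤ, d ^ 2 = n1 * n2 * n3 ∧ ((V : ℤ) + 1) ∣ d - e1 * (k2 * k3) := by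
      have s0 : ∃ d : ℤ, d ^ 2 = n1 * n2 * n3 ∧ ((V : ℤ) + 1) ∣ d - k1 * (k2 * k3) :=
        ⟨d, hd, by rwa [← mul_assoc]⟩
      rcases g1 with g | g
      · rw [g]; exact s0
      · rw [g]; exact flip s0
    have s2 : ∃ d : ℤ, d ^ 2 = n1 * n2 * n3 ∧ ((V : ℤ) + 1) ∣ d - e2 * (e1 * k3) := by
      have s0 : ∃ d : ℤ, d ^ 2 = n1 * n2 * n3 ∧ ((V : ℤ) + 1) ∣ d - k2 * (e1 * k3) := by
        have : k2 * (e1 * k3) = e1 * (k2 * k3) := by ring
        rw [this]; exact s1
      rcases g2 with g | g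
      · rw [g]; exact s0
      · rw [g]; exact flip s0
    have s3 : ∃ d : ℤ, d ^ 2 = n1 * n2 * n3 ∧ ((V : ℤ) + 1) ∣ d - e3 * (e1 * e2) := by
      have s0 : ∃ d : ℤ, d ^ 2 = n1 * n2 * n3 ∧ ((V : ℤ) + 1) ∣ d - k3 * (e1 * e2) := by
        have : k3 * (e1 * e2) = e2 * (e1 * k3) := by ring
        rw [this]; exact s2
      rcases g3 with g | g
      · rw [g]; exact s0
      · rw [g]; exact flip s0
    have : e1 * e2 * e3 = e3 * (e1 * e2) := by ring
    rw [this]; exact s3
  obtain ⟨d', hd', hdv'⟩ := hprod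
  -- the missing primes
  have hmis : ∀ {e : ℤ}, (pset V e).card = 2 → ∃ c, V.primeFactors \ pset V e = {c} := by
    intro e he
    apply Finset.card_eq_one.mp
    rw [Finset.card_sdiff_of_subset (pset_sub V e), h3, he]
  obtain ⟨c1, hc1⟩ := hmis w1
  obtain ⟨c2, hc2⟩ := hmis w2
  obtain ⟨c3, hc3⟩ := hmis w3
  have hiff : ∀ {e : ℤ} {c : ℕ}, V.primeFactors \ pset V e = {c} → ∀ p ∈ V.primeFactors,
      ((p : ℤ) ∣ e ↔ p ≠ c) := by
    intro e c hc p hp
    have : p ∈ V.primeFactors \ pset V e ↔ p ∈ ({c} : Finset ℕ) := by rw [hc]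
    rw [Finset.mem_sdiff, Finset.mem_singleton, mem_pset hp] at this
    tauto
  have hdc : ∀ {a b x y : ℤ} {c c' : ℕ}, Elt V a x → Elt V b y → a ≠ b →
      V.primeFactors \ pset V a = {c} → V.primeFactors \ pset V b = {c'} → c ≠ c' := by
    intro a b x y c c' ha hb hab h5 h6 h7
    apply hab
    apply eq_of_pset ha hb
    rw [h7, ← h6] at h5
    have h8 := congrArg (fun s => V.primeFactors \ s) h5
    simpa [Finset.sdiff_sdiff_eq_self (pset_sub V a), Finset.sdiff_sdiff_eq_self (pset_sub V b)]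
      using h8
  have y12 := hdc F1 F2 z12 hc1 hc2
  have y13 := hdc F1 F3 z13 hc1 hc3
  have y23 := hdc F2 F3 z23 hc2 hc3
  have hall : ∀ p ∈ V.primeFactors, p = c1 ∨ p = c2 ∨ p = c3 := by
    have m1 : c1 ∈ V.primeFactors := (Finset.mem_sdiff.mp (by rw [hc1]; simp :
      c1 ∈ V.primeFactors \ pset V e1)).1
    have m2 : c2 ∈ V.primeFactors := (Finset.mem_sdiff.mp (by rw [hc2]; simp :
      c2 ∈ V.primeFactors \ pset V e2)).1
    have m3 : c3 ∈ V.primeFactors := (Finset.mem_sdiff.mp (by rw [hc3]; simp :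
      c3 ∈ V.primeFactors \ pset V e3)).1
    have h5 : ({c1, c2, c3} : Finset ℕ) = V.primeFactors := by
      apply Finset.eq_of_subset_of_card_le
      · intro x hx
        simp only [Finset.mem_insert, Finset.mem_singleton] at hx
        rcases hx with rfl | rfl | rfl <;> assumption
      · rw [h3, Finset.card_eq_three.mpr ⟨c1, c2, c3, y12, y13, y23, rfl⟩]
    intro p hp
    rw [← h5] at hp
    simpa using hp
  have hV9 : (9 : ℤ) ≤ V := by
    by_contra hlt
    have h5 : V < 9 := by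
      have : (V : ℤ) < 9 := by linarith
      exact_mod_cast this
    have h6 : ∀ W < 9, W.primeFactors.card ≤ 2 := by decide +kernel
    have := h6 V h5
    omega
  refine core V e1 e2 e3 n1 n2 n3 d' hV9 (by have := F1.one; linarith) F1.lt
    (by have := F2.one; linarith) F2.lt (by have := F3.one; linarith) F3.lt ?_ ?_ ?_ ?_
    F1.nV F2.nV F3.nV hd' hdv' ((F1.cop.mul_left F2.cop).mul_left F3.cop)
  · refine dvd_of_pp fun p a hp ha0 ha => ?_
    have hm := mem_pf hV0 hp ha0 ha
    by_cases h5 : p = c1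
    · exact Dvd.dvd.mul_left ((pp F2.idem hp ha ha0).1 ((hiff hc2 p hm).2 (by rw [h5]; exact y12))) _
    · exact Dvd.dvd.mul_right ((pp F1.idem hp ha ha0).1 ((hiff hc1 p hm).2 h5)) _
  · refine dvd_of_pp fun p a hp ha0 ha => ?_
    have hm := mem_pf hV0 hp ha0 ha
    by_cases h5 : p = c1
    · exact Dvd.dvd.mul_left ((pp F3.idem hp ha ha0).1 ((hiff hc3 p hm).2 (by rw [h5]; exact y13))) _
    · exact Dvd.dvd.mul_right ((pp F1.idem hp ha ha0).1 ((hiff hc1 p hm).2 h5)) _
  · refine dvd_of_pp fun p a hp ha0 ha => ?_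
    have hm := mem_pf hV0 hp ha0 ha
    by_cases h5 : p = c2
    · exact Dvd.dvd.mul_left ((pp F3.idem hp ha ha0).1 ((hiff hc3 p hm).2 (by rw [h5]; exact y23))) _
    · exact Dvd.dvd.mul_right ((pp F2.idem hp ha ha0).1 ((hiff hc2 p hm).2 h5)) _
  · refine dvd_of_pp fun p a hp ha0 ha => ?_
    have hm := mem_pf hV0 hp ha0 ha
    have b1 := hiff hc1 p hm
    have b2 := hiff hc2 p hm
    have b3 := hiff hc3 p hm
    have q1 := pp F1.idem hp ha ha0
    have q2 := pp F2.idem hp ha ha0
    have q3 := pp F3.idem hp ha ha0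
    rcases hall p hm with h5 | h5 | h5
    · have t1 := q1.2 (by rw [b1]; simpa using h5)
      have t2 := q2.1 (by rw [b2, h5]; exact y12)
      have t3 := q3.1 (by rw [b3, h5]; exact y13)
      have h6 : e1 + e2 + e3 - 1 = (e1 - 1) + e2 + e3 := by ring
      rw [h6]; exact dvd_add (dvd_add t1 t2) t3
    · have t1 := q1.1 (by rw [b1, h5]; exact y12.symm)
      have t2 := q2.2 (by rw [b2]; simpa using h5)
      have t3 := q3.1 (by rw [b3, h5]; exact y23)
      have h6 : e1 + e2 + e3 - 1 = e1 + (e2 - 1) + e3 := by ring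
      rw [h6]; exact dvd_add (dvd_add t1 t2) t3
    · have t1 := q1.1 (by rw [b1, h5]; exact y13.symm)
      have t2 := q2.1 (by rw [b2, h5]; exact y23.symm)
      have t3 := q3.2 (by rw [b3]; simpa using h5)
      have h6 : e1 + e2 + e3 - 1 = e1 + e2 + (e3 - 1) := by ring
      rw [h6]; exact dvd_add (dvd_add t1 t2) t3

/-- the number of sets of the system -/
theorem count {V : ℕ} (hV : 2 ≤ V) {μ : ℕ} (f n : Fin μ → ℤ) (i0 : Fin μ)
    (hE : ∀ j, j ≠ i0 → Elt V (f j) (n j))
    (hd : ∀ j h, j ≠ i0 → h ≠ i0 → j ≠ h → f j ≠ f h ∧ f j + f h ≠ V + 1) :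
    μ ≤ 2 ^ (V.primeFactors.card - 1) := by
  classical
  have hQ : V.primeFactors.Nonempty := Nat.nonempty_primeFactors.mpr (by omega)
  obtain ⟨q, hq⟩ := hQ
  obtain ⟨g, hg⟩ : ∃ g : Fin μ → Finset ℕ, g = fun j => if j = i0 then ∅ else
      if q ∈ pset V (f j) then V.primeFactors \ pset V (f j) else pset V (f j) := ⟨_, rfl⟩
  have hgs : ∀ j, g j ∈ (V.primeFactors.erase q).powerset := by
    intro j
    rw [Finset.mem_powerset, hg]
    intro x hx
    dsimp only at hx
    split_ifs at hx with h1 h2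
    · simp at hx
    · rw [Finset.mem_sdiff] at hx
      rw [Finset.mem_erase]
      refine ⟨?_, hx.1⟩
      rintro rfl
      exact hx.2 h2
    · rw [Finset.mem_erase]
      refine ⟨?_, pset_sub _ _ hx⟩
      rintro rfl
      exact h2 hx
  have hg0 : ∀ j, j ≠ i0 → g j ≠ ∅ := by
    intro j hj
    rw [hg]
    dsimp only
    rw [if_neg hj]
    split_ifs with h2
    · rw [← pset_compl (hE j hj)]
      exact pset_ne_empty (hE j hj).compl
    · exact pset_ne_empty (hE j hj)
  have hinj : Function.Injective g := by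
    intro j h hjh
    by_contra hne
    by_cases hj : j = i0
    · have h0 : g j = ∅ := by rw [hg]; simp [hj]
      exact hg0 h (fun hh => hne (hj.trans hh.symm)) (by rw [← hjh, h0])
    by_cases hh : h = i0
    · have h0 : g h = ∅ := by rw [hg]; simp [hh]
      exact hg0 j hj (by rw [hjh, h0])
    obtain ⟨d1, d2⟩ := hd j h hj hh hne
    rw [hg] at hjh
    dsimp only at hjh
    rw [if_neg hj, if_neg hh] at hjh
    split_ifs at hjh with h1 h2 h2
    · rw [← pset_compl (hE j hj), ← pset_compl (hE h hh)] at hjh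
      have := eq_of_pset (hE j hj).compl (hE h hh).compl hjh
      exact d1 (by linarith)
    · rw [← pset_compl (hE j hj)] at hjh
      have := eq_of_pset (hE j hj).compl (hE h hh) hjh
      exact d2 (by linarith)
    · rw [← pset_compl (hE h hh)] at hjh
      have := eq_of_pset (hE j hj) (hE h hh).compl hjh
      exact d2 (by linarith)
    · exact d1 (eq_of_pset (hE j hj) (hE h hh) hjh)
  have h1 : (Finset.univ : Finset (Fin μ)).card ≤ (V.primeFactors.erase q).powerset.card :=
    Finset.card_le_card_of_injOn g (fun j _ => hgs j) (hinj.injOn)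
  rw [Finset.card_univ, Fintype.card_fin, Finset.card_powerset, Finset.card_erase_of_mem hq] at h1
  exact h1

/-- two designs with a common set have different orders -/
theorem differ {V : ℤ} {k k' k3 n n' n3 si sj sh : ℤ} (E : Elt V k n) (E' : Elt V k' n')
    (E3 : Elt V k3 n3) (hn : n = si * sj) (hn' : n' = si * sh) (hn3 : n3 = sj * sh)
    (hv : (V + 1) ∣ k' * k3 - sh * k) : k ≠ k' ∧ k + k' ≠ V + 1 := by
  have hb : ∀ {s : ℤ}, n3 = s * s → 0 < k3 - s ∧ k3 - s < V + 1 := by
    intro s hs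
    have h1 := E3.pos
    have h2 := E3.n_lt
    have h3 := E3.n_lt'
    have hs0 : s ≠ 0 := by
      rintro rfl
      simp at hs; linarith
    have h4 : |s| ≤ s * s := by
      have : 1 ≤ |s| := Int.one_le_abs hs0
      calc |s| = |s| * 1 := by ring
        _ ≤ |s| * |s| := mul_le_mul_of_nonneg_left this (abs_nonneg s)
        _ = s * s := abs_mul_abs_self s
    have h5 := abs_le.mp h4
    constructor <;> linarith [h5.1, h5.2]
  have hfin : ∀ {s : ℤ}, n3 = s * s → (V + 1) ∣ k * (k3 - s) → False := by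
    intro s hs hdv
    obtain ⟨b1, b2⟩ := hb hs
    have h1 : (V + 1) ∣ k3 - s := E.cop.symm.dvd_of_dvd_mul_left hdv
    have := Int.le_of_dvd b1 h1
    linarith
  have hnn : n = n' → sj = sh := by
    intro h
    have h1 := E.pos
    have h2 : si ≠ 0 := by
      rintro rfl
      simp at hn; linarith
    have h3 : si * sj = si * sh := by rw [← hn, ← hn', h]
    exact mul_left_cancel₀ h2 h3
  have hV0 : V ≠ 0 := by
    have h1 := E.one
    have h2 := E.lt
    intro h; linarith
  constructor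
  · intro hk
    subst hk
    have h1 : n = n' := by
      apply mul_right_cancel₀ hV0
      rw [E.nV, E'.nV]
    have h2 := hnn h1
    refine hfin (s := sh) (by rw [hn3, h2]) ?_
    have h3 : k * (k3 - sh) = k * k3 - sh * k := by ring
    rw [h3]; exact hv
  · intro hk
    have hk' : k' = V + 1 - k := by linarith
    have h1 : n = n' := by
      apply mul_right_cancel₀ hV0
      rw [E.nV, E'.nV, hk']; ring
    have h2 := hnn h1
    refine hfin (s := -sh) (by rw [hn3, h2]; ring) ?_
    obtain ⟨q, hq⟩ := hv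
    rw [hk'] at hq
    exact ⟨k3 - q, by linear_combination -hq⟩

end Pool.Agent.Helper675.LS
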