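import Mathlib

/-! Arithmetic of linked systems of symmetric designs whose block sizes are coprime to `v`. -/

set_option autoImplicit false

namespace Pool.Agent.Helper675.LS

/-- The arithmetic core: three orthogonal idempotents modulo `V` with sum `1`. -/
theorem core (V e1 e2 e3 n1 n2 n3 d : ℤ) (hV : 9 ≤ V)
    (h1 : 1 ≤ e1) (h1' : e1 < V) (h2 : 1 ≤ e2) (h2' : e2 < V) (h3 : 1 ≤ e3) (h3' : e3 < V)
    (d12 : V ∣ e1 * e2) (d13 : V ∣ e1 * e3) (d23 : V ∣ e2 * e3)
    (hs : V ∣ e1 + e2 + e3 - 1)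
    (hn1 : n1 * V = e1 * (V + 1 - e1)) (hn2 : n2 * V = e2 * (V + 1 - e2))
    (hn3 : n3 * V = e3 * (V + 1 - e3))
    (hd : d ^ 2 = n1 * n2 * n3) (hdv : (V + 1) ∣ d - e1 * e2 * e3)
    (hc : IsCoprime (e1 * e2 * e3) (V + 1)) : False := by
  obtain ⟨j, hj⟩ := hs
  obtain ⟨p3, hp3⟩ := d12
  obtain ⟨p2, hp2⟩ := d13
  obtain ⟨p1, hp1⟩ := d23
  have hsum : e1 + e2 + e3 = 1 + j * V := by linarith
  have hj1 : 1 ≤ j := by
    by_contra hcon
    have : j ≤ 0 := by omega
    have h8 : j * V ≤ 0 := mul_nonpos_of_nonpos_of_nonneg this (by linarith)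
    linarith
  have hj2 : j ≤ 2 := by
    by_contra hcon
    have : 3 ≤ j := by omega
    have h8 : 3 * V ≤ j * V := mul_le_mul_of_nonneg_right this (by linarith)
    linarith
  -- the product is divisible by `V ^ 2`
  have hdiv : V ^ 2 ∣ e1 * e2 * e3 := by
    have hcop : IsCoprime (V ^ 2) (1 + j * V) := by
      apply IsCoprime.pow_left
      exact ⟨-j, 1, by ring⟩
    apply hcop.dvd_of_dvd_mul_right
    refine ⟨p3 * p2 + p3 * p1 + p2 * p1, ?_⟩
    rw [← hsum]
    have e1' : e1 * (e1 * e2 * e3) = (V * p3) * (V * p2) := by rw [← hp3, ← hp2]; ring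
    have e2' : e2 * (e1 * e2 * e3) = (V * p3) * (V * p1) := by rw [← hp3, ← hp1]; ring
    have e3' : e3 * (e1 * e2 * e3) = (V * p2) * (V * p1) := by rw [← hp2, ← hp1]; ring
    linear_combination e1' + e2' + e3'
  obtain ⟨R, hR⟩ := hdiv
  have hV0 : 0 < V := by linarith
  have hK0 : 0 < e1 * e2 * e3 := by positivity
  have hR0 : 0 < R := by
    by_contra hcon
    have : R ≤ 0 := by omega
    have : V ^ 2 * R ≤ 0 := mul_nonpos_of_nonneg_of_nonpos (by positivity) this
    linarith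
  have hRV : R < V := by
    have a1 : e1 * e2 < V * V := mul_lt_mul'' h1' h2' (by linarith) (by linarith)
    have a2 : e1 * e2 * e3 < V * V * V := mul_lt_mul'' a1 h3' (by positivity) (by linarith)
    have a3 : V ^ 2 * R < V ^ 2 * V := by rw [← hR]; linarith [show V ^ 2 * V = V * V * V by ring]
    exact lt_of_mul_lt_mul_left a3 (by positivity)
  -- the complementary product
  obtain ⟨U, hU⟩ : ∃ U, U = p1 + p2 + p3 + (1 - j) * (V + 1) - R := ⟨_, rfl⟩
  have hK' : (V + 1 - e1) * (V + 1 - e2) * (V + 1 - e3) = V * ((V + 1) * U + R) := by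
    have : (V + 1 - e1) * (V + 1 - e2) * (V + 1 - e3) =
        (V + 1) ^ 3 - (V + 1) ^ 2 * (e1 + e2 + e3) + (V + 1) * (e1 * e2 + e1 * e3 + e2 * e3)
          - e1 * e2 * e3 := by ring
    rw [this, hR, hp1, hp2, hp3, hsum, hU]; ring
  have hd2 : d ^ 2 = R * ((V + 1) * U + R) := by
    have hV3 : V ^ 3 ≠ 0 := by positivity
    apply mul_left_cancel₀ hV3
    calc V ^ 3 * d ^ 2 = (n1 * V) * (n2 * V) * (n3 * V) := by rw [hd]; ring
      _ = (e1 * e2 * e3) * ((V + 1 - e1) * (V + 1 - e2) * (V + 1 - e3)) := by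
          rw [hn1, hn2, hn3]; ring
      _ = V ^ 3 * (R * ((V + 1) * U + R)) := by rw [hK', hR]; ring
  have hPi : V ^ 2 * U = (V - e1) * (V - e2) * (V - e3) + (2 - j) * V ^ 2 := by
    have : (V - e1) * (V - e2) * (V - e3) =
        V ^ 3 - V ^ 2 * (e1 + e2 + e3) + V * (e1 * e2 + e1 * e3 + e2 * e3) - e1 * e2 * e3 := by
      ring
    rw [this, hR, hp1, hp2, hp3, hsum, hU]; ring
  have hx : 0 < V - e1 := by linarith
  have hy : 0 < V - e2 := by linarith
  have hz : 0 < V - e3 := by linarith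
  have hPi0 : 0 < (V - e1) * (V - e2) * (V - e3) := by positivity
  have hU0 : 0 < U := by
    by_contra hcon
    have : U ≤ 0 := by omega
    have h5 : V ^ 2 * U ≤ 0 := mul_nonpos_of_nonneg_of_nonpos (by positivity) this
    have h6 : 0 ≤ (2 - j) * V ^ 2 := mul_nonneg (by omega) (by positivity)
    linarith
  have hPiu : 27 * ((V - e1) * (V - e2) * (V - e3)) ≤ 8 * V ^ 3 := by
    have amgm : ∀ x y z : ℤ, 0 < x → 0 < y → 0 < z → 27 * (x * y * z) ≤ (x + y + z) ^ 3 := by
      intro x y z hx hy hz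
      nlinarith [mul_nonneg hx.le (sq_nonneg (y - z)), mul_nonneg hy.le (sq_nonneg (x - z)),
        mul_nonneg hz.le (sq_nonneg (x - y)),
        mul_nonneg (add_pos (add_pos hx hy) hz).le (sq_nonneg (x - y)),
        mul_nonneg (add_pos (add_pos hx hy) hz).le (sq_nonneg (x - z)),
        mul_nonneg (add_pos (add_pos hx hy) hz).le (sq_nonneg (y - z))]
    have h5 := amgm _ _ _ hx hy hz
    have h6 : V - e1 + (V - e2) + (V - e3) ≤ 2 * V := by
      have h8 : 1 * V ≤ j * V := mul_le_mul_of_nonneg_right hj1 hV0.le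
      linarith
    have h7 : (V - e1 + (V - e2) + (V - e3)) ^ 3 ≤ (2 * V) ^ 3 :=
      pow_le_pow_left₀ (by linarith) h6 3
    have h9 : (2 * V) ^ 3 = 8 * V ^ 3 := by ring
    linarith
  have hUu : 27 * U ≤ 8 * V + 27 := by
    have h5 : V ^ 2 * (27 * U) ≤ V ^ 2 * (8 * V + 27) := by
      have h6 : (2 - j) * V ^ 2 ≤ 1 * V ^ 2 :=
        mul_le_mul_of_nonneg_right (by omega) (by positivity)
      have h7 : V ^ 2 * (8 * V + 27) = 8 * V ^ 3 + 27 * V ^ 2 := by ring
      have h8 : V ^ 2 * (27 * U) = 27 * (V ^ 2 * U) := by ring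
      rw [h7, h8, hPi]
      linarith
    exact le_of_mul_le_mul_left h5 (by positivity)
  -- `d ≡ R` modulo `V + 1`
  obtain ⟨q, hq⟩ := hdv
  obtain ⟨m, hm⟩ : ∃ m, m = q + (V - 1) * R := ⟨_, rfl⟩
  have hdm : d = (V + 1) * m + R := by
    rw [hm]; rw [hR] at hq; linear_combination hq
  have hv0 : 0 < V + 1 := by linarith
  have hmain : (V + 1) * m ^ 2 = R * (U - 2 * m) := by
    apply mul_left_cancel₀ hv0.ne'
    rw [hdm] at hd2
    linear_combination hd2
  have hRc : IsCoprime (V + 1) R := by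
    rw [hR] at hc
    exact (IsCoprime.of_mul_left_right hc).symm
  obtain ⟨t, ht⟩ : (V + 1) ∣ U - 2 * m :=
    hRc.dvd_of_dvd_mul_left ⟨m ^ 2, hmain.symm⟩
  have hmt : m ^ 2 = R * t := by
    apply mul_left_cancel₀ hv0.ne'
    rw [hmain, ht]; ring
  have ht1 : 1 ≤ t := by
    by_contra hcon
    have h5 : t ≤ 0 := by omega
    have h6 : R * t ≤ 0 := mul_nonpos_of_nonneg_of_nonpos hR0.le h5
    have h7 : m ^ 2 = 0 := le_antisymm (by linarith) (sq_nonneg m)
    have h8 : m = 0 := by simpa using h7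
    rw [h8] at ht
    have h9 : (V + 1) * t ≤ 0 := mul_nonpos_of_nonneg_of_nonpos hv0.le h5
    linarith
  have hge : V + 1 ≤ U - 2 * m := by
    rw [ht]; nlinarith
  obtain ⟨M, hM⟩ : ∃ M, M = -m := ⟨_, rfl⟩
  have hM1 : 19 * V ≤ 54 * M := by rw [hM]; linarith
  have hM0 : 0 < M := by linarith
  have hMm : (V + 1) * M ^ 2 = R * (U + 2 * M) := by
    rw [hM]; linear_combination hmain
  have hup : 27 * M ^ 2 ≤ 8 * V + 27 + 54 * M := by
    have h5 : R * (27 * U + 54 * M) ≤ (V + 1) * (8 * V + 27 + 54 * M) := by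
      apply mul_le_mul (by linarith) (by linarith) (by positivity) hv0.le
    have h6 : (V + 1) * (27 * M ^ 2) ≤ (V + 1) * (8 * V + 27 + 54 * M) := by
      calc (V + 1) * (27 * M ^ 2) = R * (27 * U + 54 * M) := by linear_combination 27 * hMm
        _ ≤ _ := h5
    exact le_of_mul_le_mul_left h6 hv0
  have hM3 : M ≤ 3 := by
    by_contra hcon
    have h8 : 4 ≤ M := by omega
    have h9 : 4 * M ≤ M * M := mul_le_mul_of_nonneg_right h8 hM0.le
    have h10 : M ^ 2 = M * M := sq M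
    linarith
  linarith

end Pool.Agent.Helper675.LS
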