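import Mathlib

/-! Systems of linked symmetric designs: the definition. -/

set_option autoImplicit false

namespace Pool.Agent.Helper675.LS

/-- `S 0, ..., S (μ - 1)` with the incidence relations `I` is a system of linked symmetric designs
with parameters `v`, `k i j`, `lam i j` (`i ≠ j`). -/
structure IsLinkedSystem {μ : ℕ} (v : ℕ) (k lam : Fin μ → Fin μ → ℕ) (S : Fin μ → Type)
    (I : ∀ i j, S i → S j → Prop) : Prop where
  /-- there are more than two sets -/
  two_lt : 2 < μ
  /-- the sets are finite -/
  finite : ∀ i, Finite (S i)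
  /-- and have size `v` -/
  card : ∀ i, Nat.card (S i) = v
  /-- the same relation is read in either order -/
  symm : ∀ i j, i ≠ j → ∀ (x : S i) (y : S j), I i j x y ↔ I j i y x
  k_symm : ∀ i j, i ≠ j → k i j = k j i
  lam_symm : ∀ i j, i ≠ j → lam i j = lam j i
  /-- the designs are not trivial: `0 < λ < k < v - 1` -/
  nontrivial : ∀ i j, i ≠ j → 0 < lam i j ∧ lam i j < k i j ∧ k i j + 1 < v
  /-- every block `y` is incident with exactly `k i j` points -/
  block : ∀ i j, i ≠ j → ∀ y : S j, Nat.card {x : S i // I i j x y} = k i j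
  /-- every two distinct points are incident with exactly `lam i j` common blocks -/
  pair : ∀ i j, i ≠ j → ∀ x x' : S i, x ≠ x' →
    Nat.card {y : S j // I i j x y ∧ I i j x' y} = lam i j
  /-- the linking condition -/
  link : ∀ i j h, i ≠ j → i ≠ h → j ≠ h → ∃ a b : ℕ, ∀ (x : S i) (y : S j),
    (I i j x y → Nat.card {z : S h // I i h x z ∧ I j h y z} = a) ∧
    (¬ I i j x y → Nat.card {z : S h // I i h x z ∧ I j h y z} = b)

end Pool.Agent.Helper675.LS
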