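import Pool.Agent.Helper675.LS.Sys

/-!
Linked systems of symmetric designs with block sizes coprime to `v`, for example with `v` prime.
-/

set_option autoImplicit false

namespace Pool.Agent.Helper675.LS

/-- Let a system of `μ > 2` linked symmetric designs on `v` points be given, with `v` prime, or more
generally with all block sizes `k i j` coprime to `v`. Then `v - 1` has at least four distinct prime
divisors, `μ ≤ 2 ^ (ω(v - 1) - 1)`, and two designs of the system which share one of the sets never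
have equal or complementary block sizes. -/
theorem main {μ v : ℕ} {k lam : Fin μ → Fin μ → ℕ} {S : Fin μ → Type}
    {I : ∀ i j, S i → S j → Prop} (H : IsLinkedSystem v k lam S I)
    (hc : v.Prime ∨ ∀ i j, i ≠ j → (k i j).Coprime v) :
    4 ≤ (v - 1).primeFactors.card ∧
    μ ≤ 2 ^ ((v - 1).primeFactors.card - 1) ∧
    ∀ i j h, i ≠ j → i ≠ h → j ≠ h → k i j ≠ k i h ∧ k i j + k i h ≠ v := by
  -- block sizes are coprime to `v`
  have hc' : ∀ i j, i ≠ j → (k i j).Coprime v := by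
    rcases hc with hc | hc
    · intro i j hij
      obtain ⟨n1, n2, n3⟩ := H.nontrivial i j hij
      refine ((Nat.Prime.coprime_iff_not_dvd hc).mpr fun h => ?_).symm
      have := Nat.le_of_dvd (by omega) h
      omega
    · exact hc
  have hE : ∀ {i j : Fin μ}, i ≠ j →
      Elt ((v - 1 : ℕ) : ℤ) (k i j) ((k i j : ℤ) - lam i j) := fun {i j} hij =>
    elt H hij (hc' i j hij)
  have hv : ∀ {i j : Fin μ}, i ≠ j → (((v - 1 : ℕ) : ℤ) + 1) = v := by
    intro i j hij
    obtain ⟨n1, n2, n3⟩ := H.nontrivial i j hij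
    have : v - 1 + 1 = v := by omega
    exact_mod_cast this
  have hdiff : ∀ i j h : Fin μ, i ≠ j → i ≠ h → j ≠ h →
      (k i j : ℤ) ≠ k i h ∧ (k i j : ℤ) + k i h ≠ ((v - 1 : ℕ) : ℤ) + 1 := by
    intro i j h hij hih hjh
    obtain ⟨si, sj, sh, t1, t2, t3, t4⟩ := triple H hij hih hjh
    refine differ (hE hij) (hE hih) (hE hjh) t1 t2 t3 ?_
    rw [hv hij]; exact t4
  have hμ := H.two_lt
  obtain ⟨i, hi⟩ : ∃ i : Fin μ, i = ⟨0, by omega⟩ := ⟨_, rfl⟩
  obtain ⟨j, hj⟩ : ∃ j : Fin μ, j = ⟨1, by omega⟩ := ⟨_, rfl⟩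
  obtain ⟨h, hh⟩ : ∃ h : Fin μ, h = ⟨2, by omega⟩ := ⟨_, rfl⟩
  have hij : i ≠ j := by rw [hi, hj]; simp
  have hih : i ≠ h := by rw [hi, hh]; simp
  have hjh : j ≠ h := by rw [hj, hh]; simp
  refine ⟨?_, ?_, ?_⟩
  · obtain ⟨si, sj, sh, t1, t2, t3, q, t4⟩ := triple H hij hih hjh
    obtain ⟨a1, a2⟩ := hdiff i j h hij hih hjh
    obtain ⟨b1, b2⟩ := hdiff j i h hij.symm hjh hih
    obtain ⟨c1, c2⟩ := hdiff h i j hih.symm hjh.symm hij
    rw [H.k_symm j i hij.symm] at b1 b2
    rw [H.k_symm h i hih.symm, H.k_symm h j hjh.symm] at c1 c2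
    have E1 := hE hij
    refine four (hE hij) (hE hih) (hE hjh) (d := si * sj * sh) ?_ ?_ a1 a2 b1 b2 c1 c2
    · rw [t1, t2, t3]; ring
    · -- `k1 * k2 * k3 ≡ sh * k1 ^ 2 ≡ sh * n1`
      rw [hv hij]
      obtain ⟨l, hl⟩ : ∃ l : ℤ, (k i j : ℤ) * k i j = v * l + (k i j - lam i j) := by
        have h1 := E1.nV
        have h2 : ((v - 1 : ℕ) : ℤ) = v - 1 := by have := hv hij; linarith
        rw [h2] at h1
        exact ⟨(k i j : ℤ) - (k i j - lam i j), by linear_combination h1⟩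
      refine ⟨-(k i j * q) - sh * l, ?_⟩
      linear_combination (-(k i j : ℤ)) * t4 - sh * hl - sh * t1
  · have hV2 : 2 ≤ v - 1 := by
      obtain ⟨n1, n2, n3⟩ := H.nontrivial i j hij
      omega
    refine count (V := v - 1) hV2 (fun x => (k i x : ℤ)) (fun x => (k i x : ℤ) - lam i x) i
      (fun x hx => hE (Ne.symm hx)) ?_
    intro x y hx hy hxy
    exact hdiff i x y (Ne.symm hx) (Ne.symm hy) hxy
  · intro a b c hab hac hbc
    obtain ⟨a1, a2⟩ := hdiff a b c hab hac hbc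
    refine ⟨fun h1 => a1 (by exact_mod_cast h1), fun h1 => a2 ?_⟩
    rw [hv hab]; exact_mod_cast h1

end Pool.Agent.Helper675.LS
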