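import Pool.Agent.Helper675.LS.Arith
import Pool.Agent.Helper675.LS.Def

/-! Systems of linked symmetric designs. -/

set_option autoImplicit false

namespace Pool.Agent.Helper675.LS

open Classical in
/-- the 0/1 matrix of a relation -/
noncomputable def mat {X Y : Type} (R : X → Y → Prop) (x : X) (y : Y) : ℤ :=
  if R x y then 1 else 0

theorem card_eq_sum {X : Type} [Fintype X] (R : X → Prop) :
    ((Nat.card {x // R x} : ℕ) : ℤ) = ∑ x, (open Classical in if R x then (1 : ℤ) else 0) := by
  classical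
  rw [Nat.card_eq_fintype_card, Fintype.card_subtype, Finset.card_filter]
  push_cast
  rfl

theorem card_and_eq_sum {X Y Z : Type} [Fintype Z] (R : X → Z → Prop) (T : Y → Z → Prop) (x : X)
    (y : Y) : ((Nat.card {z // R x z ∧ T y z} : ℕ) : ℤ) = ∑ z, mat R x z * mat T y z := by
  classical
  rw [card_eq_sum]
  refine Finset.sum_congr rfl fun z _ => ?_
  unfold mat
  by_cases h1 : R x z <;> by_cases h2 : T y z <;> simp [h1, h2]

section
variable {X Y Z : Type} [Fintype X] [Fintype Y] [Fintype Z]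

/-- Counting: the order of one design is the product of two linking constants. -/
theorem prod_link (a : X → Y → ℤ) (c : X → Z → ℤ) (e : Y → Z → ℤ)
    (lc nc kc ke bh sh bi si : ℤ)
    (hcc : ∀ z z' : Z, z ≠ z' → ∑ x, c x z * c x z' = lc)
    (hcc' : ∀ z : Z, ∑ x, c x z * c x z = lc + nc)
    (hc1 : ∀ z : Z, ∑ x, c x z = kc)
    (he1 : ∀ y : Y, ∑ z, e y z = ke)
    (hh : ∀ x y, ∑ z, c x z * e y z = bh + sh * a x y)
    (hi : ∀ y z, ∑ x, c x z * a x y = bi + si * e y z)
    (y1 y2 : Y) (z : Z) (h1 : e y1 z = 1) (h2 : e y2 z = 0) : nc = sh * si := by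
  classical
  have key : ∀ y : Y, lc * ke + nc * e y z = bh * kc + sh * (bi + si * e y z) := by
    intro y
    have e1 : ∑ x, ∑ z', c x z * (c x z' * e y z') = lc * ke + nc * e y z := by
      rw [Finset.sum_comm]
      have : ∀ z' : Z, ∑ x, c x z * (c x z' * e y z') =
          lc * e y z' + (if z = z' then nc * e y z' else 0) := by
        intro z'
        have h3 : ∑ x, c x z * (c x z' * e y z') = (∑ x, c x z * c x z') * e y z' := by
          rw [Finset.sum_mul]; exact Finset.sum_congr rfl fun x _ => by ring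
        rw [h3]
        by_cases h4 : z = z'
        · subst h4; rw [hcc', if_pos rfl]; ring
        · rw [hcc z z' h4, if_neg h4]; ring
      rw [Finset.sum_congr rfl fun z' _ => this z', Finset.sum_add_distrib, ← Finset.mul_sum, he1,
        Finset.sum_ite_eq, if_pos (Finset.mem_univ z)]
    have e2 : ∑ x, ∑ z', c x z * (c x z' * e y z') = bh * kc + sh * (bi + si * e y z) := by
      have : ∀ x : X, ∑ z', c x z * (c x z' * e y z') = bh * c x z + sh * (c x z * a x y) := by
        intro x
        rw [← Finset.mul_sum, hh]; ring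
      rw [Finset.sum_congr rfl fun x _ => this x, Finset.sum_add_distrib, ← Finset.mul_sum,
        ← Finset.mul_sum, hc1, hi]
    rw [← e1, e2]
  have k1 := key y1
  have k2 := key y2
  rw [h1] at k1
  rw [h2] at k2
  linear_combination k1 - k2

/-- Counting: row sums of the linking condition. -/
theorem row_link (a : X → Y → ℤ) (c : X → Z → ℤ) (e : Y → Z → ℤ) (ka kc ke bh sh : ℤ)
    (ha : ∀ x : X, ∑ y, a x y = ka) (hc : ∀ x : X, ∑ z, c x z = kc)
    (he : ∀ z : Z, ∑ y, e y z = ke)
    (hh : ∀ x y, ∑ z, c x z * e y z = bh + sh * a x y) (x : X) :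
    kc * ke - sh * ka = Fintype.card Y * bh := by
  have e1 : ∑ y, ∑ z, c x z * e y z = kc * ke := by
    rw [Finset.sum_comm]
    have : ∀ z : Z, ∑ y, c x z * e y z = c x z * ke := by
      intro z; rw [← Finset.mul_sum, he]
    rw [Finset.sum_congr rfl fun z _ => this z, ← Finset.sum_mul, hc]
  have e2 : ∑ y, ∑ z, c x z * e y z = Fintype.card Y * bh + sh * ka := by
    rw [Finset.sum_congr rfl fun y _ => hh x y, Finset.sum_add_distrib, ← Finset.mul_sum, ha,
      Finset.sum_const, Finset.card_univ, nsmul_eq_mul]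
  linarith

/-- Counting: `k ^ 2 = v λ + (k - λ)`. -/
theorem design_eq (a : X → Y → ℤ) (k l : ℤ) (h1 : ∀ y, ∑ x, a x y = k) (h2 : ∀ x, ∑ y, a x y = k)
    (h3 : ∀ x x' : X, x ≠ x' → ∑ y, a x y * a x' y = l) (h4 : ∀ x, ∑ y, a x y * a x y = k)
    (x : X) : k * k = Fintype.card X * l + (k - l) := by
  classical
  have e1 : ∑ x', ∑ y, a x y * a x' y = k * k := by
    rw [Finset.sum_comm]
    have : ∀ y : Y, ∑ x', a x y * a x' y = a x y * k := by
      intro y; rw [← Finset.mul_sum, h1]
    rw [Finset.sum_congr rfl fun y _ => this y, ← Finset.sum_mul, h2]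
  have e2 : ∑ x', ∑ y, a x y * a x' y = Fintype.card X * l + (k - l) := by
    have : ∀ x' : X, ∑ y, a x y * a x' y = l + (if x = x' then k - l else 0) := by
      intro x'
      by_cases h5 : x = x'
      · subst h5; rw [h4, if_pos rfl]; ring
      · rw [h3 x x' h5, if_neg h5]; ring
    rw [Finset.sum_congr rfl fun x' _ => this x', Finset.sum_add_distrib, Finset.sum_ite_eq,
      if_pos (Finset.mem_univ x), Finset.sum_const, Finset.card_univ, nsmul_eq_mul]
  linarith

end

section
variable {μ v : ℕ} {k lam : Fin μ → Fin μ → ℕ} {S : Fin μ → Type} {I : ∀ i j, S i → S j → Prop}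

theorem mat_symm (H : IsLinkedSystem v k lam S I) {i j : Fin μ} (hij : i ≠ j) (x : S i) (y : S j) :
    mat (I i j) x y = mat (I j i) y x := by
  have h := H.symm i j hij x y
  unfold mat
  by_cases h1 : I i j x y
  · rw [if_pos h1, if_pos (h.1 h1)]
  · rw [if_neg h1, if_neg (fun h2 => h1 (h.2 h2))]

theorem mat_sq {X Y : Type} (R : X → Y → Prop) (x : X) (y : Y) :
    mat R x y * mat R x y = mat R x y := by
  classical
  unfold mat; by_cases h : R x y <;> simp [h]

theorem col_sum [∀ i, Fintype (S i)] (H : IsLinkedSystem v k lam S I) {i j : Fin μ} (hij : i ≠ j)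
    (y : S j) : ∑ x, mat (I i j) x y = k i j := by
  rw [← H.block i j hij y, card_eq_sum]
  rfl

theorem row_sum [∀ i, Fintype (S i)] (H : IsLinkedSystem v k lam S I) {i j : Fin μ} (hij : i ≠ j)
    (x : S i) : ∑ y, mat (I i j) x y = k i j := by
  rw [H.k_symm i j hij, ← col_sum H hij.symm x]
  exact Finset.sum_congr rfl fun y _ => mat_symm H hij x y

theorem row_pair [∀ i, Fintype (S i)] (H : IsLinkedSystem v k lam S I) {i j : Fin μ} (hij : i ≠ j)
    (x x' : S i) (hx : x ≠ x') : ∑ y, mat (I i j) x y * mat (I i j) x' y = lam i j := by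
  rw [← H.pair i j hij x x' hx, card_and_eq_sum]

theorem col_pair [∀ i, Fintype (S i)] (H : IsLinkedSystem v k lam S I) {i j : Fin μ} (hij : i ≠ j)
    (y y' : S j) (hy : y ≠ y') : ∑ x, mat (I i j) x y * mat (I i j) x y' = lam i j := by
  rw [H.lam_symm i j hij, ← row_pair H hij.symm y y' hy]
  exact Finset.sum_congr rfl fun x _ => by rw [mat_symm H hij, mat_symm H hij]

theorem exists_both [∀ i, Fintype (S i)] (H : IsLinkedSystem v k lam S I) {i j : Fin μ}
    (hij : i ≠ j) (y : S j) : (∃ x, mat (I i j) x y = 1) ∧ ∃ x, mat (I i j) x y = 0 := by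
  classical
  have h1 := col_sum H hij y
  obtain ⟨n1, n2, n3⟩ := H.nontrivial i j hij
  constructor
  · by_contra hcon
    push Not at hcon
    have : ∀ x, mat (I i j) x y = 0 := by
      intro x
      have := hcon x
      unfold mat at this ⊢
      by_cases h : I i j x y
      · simp [h] at this
      · simp [h]
    rw [Finset.sum_congr rfl fun x _ => this x] at h1
    simp at h1
    omega
  · by_contra hcon
    push Not at hcon
    have : ∀ x, mat (I i j) x y = 1 := by
      intro x
      have := hcon x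
      unfold mat at this ⊢
      by_cases h : I i j x y
      · simp [h]
      · simp [h] at this
    rw [Finset.sum_congr rfl fun x _ => this x] at h1
    have h2 := H.card i
    rw [Nat.card_eq_fintype_card] at h2
    simp [h2] at h1
    omega

theorem elt (H : IsLinkedSystem v k lam S I) {i j : Fin μ} (hij : i ≠ j)
    (hc : (k i j).Coprime v) : Elt ((v - 1 : ℕ) : ℤ) (k i j) ((k i j : ℤ) - lam i j) := by
  haveI := H.finite
  letI : ∀ i, Fintype (S i) := fun i => Fintype.ofFinite (S i)
  obtain ⟨n1, n2, n3⟩ := H.nontrivial i j hij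
  have hcard : Fintype.card (S i) = v := by rw [← Nat.card_eq_fintype_card]; exact H.card i
  have hne : Nonempty (S i) := Fintype.card_pos_iff.mp (by omega)
  obtain ⟨x⟩ := hne
  have h1 := design_eq (mat (I i j)) (k i j) (lam i j) (col_sum H hij) (row_sum H hij)
    (row_pair H hij) (fun x => by
      rw [Finset.sum_congr rfl fun y _ => mat_sq (I i j) x y]; exact row_sum H hij x) x
  rw [hcard] at h1
  have hv : ((v - 1 : ℕ) : ℤ) = (v : ℤ) - 1 := by push_cast [Nat.cast_sub (show 1 ≤ v by omega)]; ring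
  rw [hv]
  exact {
    one := by have : (1 : ℤ) < k i j := by exact_mod_cast (show 1 < k i j by omega)
              exact this
    lt := by
      have : ((k i j : ℕ) : ℤ) + 1 < v := by exact_mod_cast n3
      linarith
    idem := ⟨lam i j, by linear_combination h1⟩
    nV := by linear_combination h1
    cop := by
      have : (v : ℤ) - 1 + 1 = v := by ring
      rw [this]
      exact Nat.isCoprime_iff_coprime.mpr hc }

/-- the linking constants of a triple -/
theorem triple (H : IsLinkedSystem v k lam S I) {i j h : Fin μ} (hij : i ≠ j) (hih : i ≠ h)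
    (hjh : j ≠ h) : ∃ si sj sh : ℤ, (k i j : ℤ) - lam i j = si * sj ∧
      (k i h : ℤ) - lam i h = si * sh ∧ (k j h : ℤ) - lam j h = sj * sh ∧
      (v : ℤ) ∣ (k i h : ℤ) * k j h - sh * k i j := by
  classical
  haveI := H.finite
  letI : ∀ i, Fintype (S i) := fun i => Fintype.ofFinite (S i)
  have hcard : ∀ i, Fintype.card (S i) = v := fun i => by
    rw [← Nat.card_eq_fintype_card]; exact H.card i
  obtain ⟨n1, n2, n3⟩ := H.nontrivial i j hij
  have hne : ∀ i, Nonempty (S i) := fun i => Fintype.card_pos_iff.mp (by rw [hcard]; omega)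
  -- linking constants in matrix form
  have hlink : ∀ {i j h : Fin μ}, i ≠ j → i ≠ h → j ≠ h → ∃ b s : ℤ, ∀ (x : S i) (y : S j),
      ∑ z, mat (I i h) x z * mat (I j h) y z = b + s * mat (I i j) x y := by
    intro i j h h1 h2 h3
    obtain ⟨a, b, hab⟩ := H.link i j h h1 h2 h3
    refine ⟨b, a - b, fun x y => ?_⟩
    rw [← card_and_eq_sum]
    unfold mat
    by_cases h4 : I i j x y
    · rw [(hab x y).1 h4, if_pos h4]; ring
    · rw [(hab x y).2 h4, if_neg h4]; ring
  obtain ⟨bh, sh, Hh⟩ := hlink hij hih hjh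
  obtain ⟨bi, si, Hi⟩ := hlink hjh.symm hih.symm hij.symm
  obtain ⟨bj, sj, Hj⟩ := hlink hih hij hjh.symm
  -- three matrices a, c, e
  have Hi' : ∀ (y : S j) (z : S h), ∑ x, mat (I i h) x z * mat (I i j) x y =
      bi + si * mat (I j h) y z := by
    intro y z
    have := Hi z y
    rw [mat_symm H hjh y z, ← this]
    exact Finset.sum_congr rfl fun x _ => by rw [mat_symm H hih, mat_symm H hij]
  have Hj' : ∀ (x : S i) (z : S h), ∑ y, mat (I i j) x y * mat (I j h) y z =
      bj + sj * mat (I i h) x z := by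
    intro x z
    rw [← Hj x z]
    exact Finset.sum_congr rfl fun y _ => by rw [mat_symm H hjh]
  obtain ⟨z0⟩ := hne h
  obtain ⟨y0⟩ := hne j
  obtain ⟨x0⟩ := hne i
  obtain ⟨⟨y1, hy1⟩, ⟨y2, hy2⟩⟩ := exists_both H hjh z0
  obtain ⟨⟨z1, hz1⟩, ⟨z2, hz2⟩⟩ := exists_both H hjh.symm y0
  obtain ⟨⟨x1, hx1⟩, ⟨x2, hx2⟩⟩ := exists_both H hih z0
  have sqr : ∀ {i j : Fin μ}, i ≠ j → ∀ x : S i, ∑ y, mat (I i j) x y * mat (I i j) x y =
      (lam i j : ℤ) + ((k i j : ℤ) - lam i j) := by
    intro i j hij x
    rw [Finset.sum_congr rfl fun y _ => mat_sq (I i j) x y, row_sum H hij x]; ring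
  have sqc : ∀ {i j : Fin μ}, i ≠ j → ∀ y : S j, ∑ x, mat (I i j) x y * mat (I i j) x y =
      (lam i j : ℤ) + ((k i j : ℤ) - lam i j) := by
    intro i j hij y
    rw [Finset.sum_congr rfl fun x _ => mat_sq (I i j) x y, col_sum H hij y]; ring
  -- n_ih = s_h s_i
  have P1 := prod_link (mat (I i j)) (mat (I i h)) (mat (I j h)) (lam i h)
    ((k i h : ℤ) - lam i h) (k i h) (k j h) bh sh bi si (col_pair H hih) (sqc hih)
    (col_sum H hih) (row_sum H hjh) Hh Hi' y1 y2 z0 hy1 hy2
  -- n_ij = s_j s_i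
  have P2 := prod_link (mat (I i h)) (mat (I i j)) (fun (z : S h) (y : S j) => mat (I j h) y z)
    (lam i j) ((k i j : ℤ) - lam i j) (k i j) (k j h) bj sj bi si (col_pair H hij) (sqc hij)
    (col_sum H hij) (fun z => col_sum H hjh z) Hj'
    (fun z y => by rw [← Hi' y z]; exact Finset.sum_congr rfl fun x _ => by ring)
    z1 z2 y0 (by rw [mat_symm H hjh]; exact hz1) (by rw [mat_symm H hjh]; exact hz2)
  -- n_jh = s_h s_j
  have P3 := prod_link (fun (y : S j) (x : S i) => mat (I i j) x y) (mat (I j h)) (mat (I i h))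
    (lam j h) ((k j h : ℤ) - lam j h) (k j h) (k i h) bh sh bj sj (col_pair H hjh) (sqc hjh)
    (col_sum H hjh) (row_sum H hih)
    (fun y x => by rw [← Hh x y]; exact Finset.sum_congr rfl fun z _ => by ring)
    (fun x z => by rw [← Hj' x z]; exact Finset.sum_congr rfl fun y _ => by ring)
    x1 x2 z0 hx1 hx2
  have R := row_link (mat (I i j)) (mat (I i h)) (mat (I j h)) (k i j) (k i h) (k j h) bh sh
    (row_sum H hij) (row_sum H hih) (fun z => col_sum H hjh z) Hh x0
  refine ⟨si, sj, sh, by rw [P2]; ring, by rw [P1]; ring, by rw [P3]; ring, ⟨bh, ?_⟩⟩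
  rw [R, hcard]

end

end Pool.Agent.Helper675.LS
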